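import Mathlib
import Pool.Agent.Lib.MP_5ee2e8_co.Defs
import Pool.Agent.Lib.MP_5ee2e8_co_h71.Covers
set_option autoImplicit false

open Pool.Agent.Lib.MP_5ee2e8_co Pool.Agent.Lib.MP_5ee2e8_co_h71

namespace Pool.Agent.Results.MP_5ee2e8_co.NineFifths

/-- Every bridgeless finite multigraph has thirty covers by three even subgraphs such that every
edge is covered exactly fifty four times in all. Hence for all real edge weights, of any signs, one
of these thirty covers has total weight at least nine fifths of the weight of all edges; in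
particular (all weights one) some cover by three even subgraphs has total length at least `9m/5`. -/
theorem result (V E : Type) [Fintype V] [Fintype E] (ends : E → Sym2 V) (hb : Bridgeless ends) :
    ∃ C : Fin 30 → Fin 3 → Set E, (∀ j i, IsEvenSub ends (C j i)) ∧
      (∀ j, ⋃ i, C j i = Set.univ) ∧
      (∀ e, Set.ncard {q : Fin 30 × Fin 3 | e ∈ C q.1 q.2} = 54) ∧
      ∀ w : E → ℝ, ∃ j, 9 / 5 * ∑ e, w e ≤ ∑ i, ∑ e, (C j i).indicator w e := by
  classical
  obtain ⟨a, b, h⟩ := exists_ab ends
  obtain ⟨D, hD, hcov, hcnt⟩ := thirty a b (no_bridge ends a b h hb)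
  let f : Fin 30 ≃ Fin 3 × Fin 10 := (finProdFinEquiv (m := 3) (n := 10)).symm
  let C : Fin 30 → Fin 3 → Set E := fun j i => {e | D (f j).1 (f j).2 i e = 1}
  have hcount : ∀ e, ∑ j, ∑ i, (if e ∈ C j i then 1 else 0) = 54 := by
    intro e
    rw [← hcnt e, ← Fintype.sum_prod_type' (f := fun ε j => ∑ i, (if D ε j i e = 1 then 1 else 0))]
    exact Fintype.sum_equiv f _ _ fun j => rfl
  refine ⟨C, ?_, ?_, ?_, ?_⟩
  · intro j i
    exact (even_iff ends a b h _).2 (hD _ _ _)
  · intro j
    refine Set.eq_univ_of_forall fun e => ?_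
    obtain ⟨i, hi⟩ := hcov (f j).1 (f j).2 e
    exact Set.mem_iUnion.2 ⟨i, hi⟩
  · intro e
    rw [← hcount e, Set.ncard_eq_toFinset_card', Finset.card_eq_sum_ones, Set.toFinset_ofPred,
      Finset.sum_filter, Fintype.sum_prod_type]
  · intro w
    by_contra hno
    push Not at hno
    have h1 : ∑ j, ∑ i, ∑ e, (C j i).indicator w e = 54 * ∑ e, w e := by
      have h2 : ∀ e, ∑ j, ∑ i, (C j i).indicator w e = 54 * w e := by
        intro e
        have h3 : ∀ j i, (C j i).indicator w e = ((if e ∈ C j i then 1 else 0 : ℕ) : ℝ) * w e := by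
          intro j i
          by_cases hh : e ∈ C j i <;> simp [hh]
        simp_rw [h3, ← Finset.sum_mul]
        have h4 := hcount e
        have h5 : (∑ j, ∑ i, ((if e ∈ C j i then 1 else 0 : ℕ) : ℝ)) = 54 := by
          exact_mod_cast h4
        rw [h5]
      have h6 : ∑ e, ∑ j, ∑ i, (C j i).indicator w e = ∑ j, ∑ i, ∑ e, (C j i).indicator w e := by
        rw [Finset.sum_comm]
        exact Finset.sum_congr rfl fun j _ => Finset.sum_comm
      rw [← h6, Finset.mul_sum]
      exact Finset.sum_congr rfl fun e _ => h2 e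
    have h2 : ∑ j : Fin 30, ∑ i, ∑ e, (C j i).indicator w e < ∑ j : Fin 30, 9 / 5 * ∑ e, w e :=
      Finset.sum_lt_sum_of_nonempty ⟨0, Finset.mem_univ _⟩ fun j _ => hno j
    rw [h1, Finset.sum_const, Finset.card_univ, Fintype.card_fin, nsmul_eq_mul] at h2
    push_cast at h2
    linarith

end Pool.Agent.Results.MP_5ee2e8_co.NineFifths
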