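import Mathlib
import Pool.Agent.Lib.MP_5ee2e8_co.Proof
set_option autoImplicit false

open Pool.Agent.Lib.MP_5ee2e8_co

namespace Pool.Agent.Results.MP_5ee2e8_co.UniformTripleEquivalence

/-- Q1, its weighted form, the uniform cover form, and the uniform triple forms for cubic and for
simple cubic graphs are all equivalent. -/
theorem result :
    List.TFAE [LengthStatement, WeightedStatement, UniformCoverStatement,
      UniformTriplesStatement, SimpleTriplesStatement] :=
  equivalence

end Pool.Agent.Results.MP_5ee2e8_co.UniformTripleEquivalence
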